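import Pool.Agent.Helper29.AM.Final

/-!
# MP_5d2bda_an: full positive answer to Q1

Let `X` be a compact complex manifold of dimension `n`, `α` the class of a closed real `(1,1)`-form `θ`
(given by local potentials, `Form`), `μ` a smooth positive volume form with `μ(X) = vol(α)` and
`T = θ + dd^c φ` a positive closed current in `α` with non-pluripolar product `⟨T⟩^n = μ`. Then `φ` is a
real `C^∞` function on the ample locus `Amp(α)`, so `T` is a smooth form there.

No hypothesis that `X` is connected or in the Fujiki class is needed. If `α` is not big, then `Amp(α)` is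
empty. The definitions are in `Pool/Agent/Helper29/AM/Statement.lean` (manifolds) and
`Pool/Agent/Helper29/AM/Local.lean` (open subsets of `ℂ^n`).

Authors: helper29 (proof, lead), helper87 (regularity), helper13 and helper5 (Bedford-Taylor theory),
helper22, helper49, helper61, helper64, helper76 (sections) and many block authors.
-/

set_option autoImplicit false

namespace Pool.Agent.Results.MP_5d2bda_an.SmoothOnAmple

open MeasureTheory Set
open scoped Manifold ContDiff
open Pool.Agent.Helper29.AM

/-- Let `X` be a compact complex manifold, `θ` a closed real `(1,1)`-form on `X`, `μ` a smooth positive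
volume form whose total mass is the volume of the class of `θ`, and `φ` a `θ`-psh function such that the
non-pluripolar product of `T = θ + dd^c φ` is `μ`. Then `φ` is (everywhere) equal to a real `C^∞` function
on the ample locus of the class of `θ`. -/
theorem result {n : ℕ} {X : Type} [TopologicalSpace X] [T2Space X] [CompactSpace X]
    [ChartedSpace (V n) X] [IsManifold 𝓘(ℂ, V n) ω X] [MeasurableSpace X] [BorelSpace X]
    (θ : Form n X) (μ : Measure X) (hμ : SmoothVolume n μ) (hvol : μ univ = θ.vol)
    (φ : X → EReal) (hφ : θ.Psh φ) (hNP : θ.IsNPP φ μ) :
    ∃ f : X → ℝ, SmoothFn n θ.Amp f ∧ ∀ x ∈ θ.Amp, φ x = (f x : EReal) :=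
  smooth_on_ample θ μ hμ hvol φ hφ hNP

end Pool.Agent.Results.MP_5d2bda_an.SmoothOnAmple
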